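import Pool.Agent.Helper41.Perm.Main

/-!
# Permutations of every dimension without large empty boxes

For all `d ≥ 2`, `e ≥ 1` and all orders `n` whose prime factors divide `e` there are
`d`-dimensional permutations `A` of order `n` with `ε(A) ≤ 16 e^(2d) (d+3) n²`, and for large `n`
at least `n^(c n^d)` of them, `c = 7 / (256 e^(2d))`.
-/

set_option autoImplicit false

namespace Pool.Agent.Results.MP_56afde_co.AllDimensions

open Pool.Agent.Helper41.Perm

theorem exists_group (e : ℕ) (n : ℕ) (hn : 1 ≤ n) (h : ∀ p : ℕ, p.Prime → p ∣ n → p ∣ e) :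
    ∃ (G : Type) (_ : AddCommGroup G) (_ : Fintype G), Fintype.card G = n ∧
      ∀ x : G, e • x = 0 := by
  induction n using induction_on_primes with
  | zero => exact absurd hn (by norm_num)
  | one => exact ⟨PUnit, inferInstance, inferInstance, rfl, fun x => rfl⟩
  | prime_mul p a hp ih =>
    have ha : 1 ≤ a := by
      rcases Nat.eq_zero_or_pos a with h0 | h0
      · rw [h0] at hn; simp at hn
      · exact h0
    obtain ⟨G, i1, i2, hcard, hG⟩ := ih ha (fun r hr hra => h r hr (dvd_mul_of_dvd_right hra p))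
    have : NeZero p := ⟨hp.ne_zero⟩
    refine ⟨ZMod p × G, inferInstance, inferInstance, ?_, ?_⟩
    · rw [Fintype.card_prod, ZMod.card, hcard]
    · rintro ⟨x, y⟩
      have hpe : p ∣ e := h p hp (Dvd.intro a rfl)
      have h1 : e • x = 0 := by
        rw [nsmul_eq_mul, (ZMod.natCast_eq_zero_iff e p).2 hpe, zero_mul]
      exact Prod.ext h1 (hG y)

theorem exists_one {G : Type} [AddCommGroup G] [Fintype G] [DecidableEq G] {d n e : ℕ}
    (he : 0 < e) (hG : ∀ x : G, e • x = 0) (ψ : G ≃ Fin n) (hn : 0 < n) :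
    ∃ A : (Fin (d + 1) → Fin n) → Bool,
      IsPerm A ∧ eps A ≤ 16 * (e ^ d * e ^ d) * (d + 3) * n ^ 2 := by
  classical
  obtain ⟨q, hq⟩ : ∃ q, q + 1 = 8 * (e ^ d * (n * e ^ d)) := by
    refine ⟨8 * (e ^ d * (n * e ^ d)) - 1, ?_⟩
    have : 0 < e ^ d * (n * e ^ d) := by positivity
    omega
  have hbad := bad_count (d := d) he ψ hn (Fintype.equivFin ((Fin d → G) × G)) hq
  by_contra hcon
  push Not at hcon
  have h1 : (Finset.univ.filter (fun ω : Fin (Fintype.card ((Fin d → G) × G)) → Fin (q + 1) =>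
      ¬ eps (arr ψ (disp e (Fintype.equivFin ((Fin d → G) × G)) ω)) ≤
        16 * (e ^ d * e ^ d) * (d + 3) * n ^ 2)) = Finset.univ := by
    rw [Finset.filter_eq_self]
    intro ω _
    exact not_le.2 (hcon _ (isPerm_arr he hG ψ _ ω))
  rw [h1, Finset.card_univ, Fintype.card_fun, Fintype.card_fin, Fintype.card_fin] at hbad
  have h2 : 2 * Real.exp (-(2 * n)) < 1 := by
    have h3 : (3 : ℝ) ≤ Real.exp (2 * n) := by
      have h4 := Real.add_one_le_exp (2 * (n : ℝ))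
      have h5 : (1 : ℝ) ≤ n := by exact_mod_cast hn
      linarith
    rw [Real.exp_neg, ← div_eq_mul_inv, div_lt_one (Real.exp_pos _)]
    linarith
  have h3 : (0 : ℝ) < ((q : ℝ) + 1) ^ Fintype.card ((Fin d → G) × G) := by positivity
  have h4 := mul_lt_mul_of_pos_right h2 h3
  push_cast at hbad
  linarith

/-- For all `d ≥ 2` and `e ≥ 1`: for every `n ≥ 1` all of whose prime factors divide `e` there is
a `d`-dimensional permutation `A` of order `n` with `ε(A) ≤ 16 e^(2d) (d+3) n²`, and if `n` is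
large, there are at least `n^(c n^d)` such permutations, `c = 7 / (256 e^(2d))`. -/
theorem result (d e : ℕ) (_hd : 2 ≤ d) (he : 1 ≤ e) :
    ∃ n₀ : ℕ, ∀ n : ℕ, 1 ≤ n → (∀ p : ℕ, p.Prime → p ∣ n → p ∣ e) →
      (∃ A : (Fin (d + 1) → Fin n) → Bool,
        IsPerm A ∧ eps A ≤ 16 * e ^ (2 * d) * (d + 3) * n ^ 2) ∧
      (n₀ ≤ n → (n : ℝ) ^ (7 / (256 * (e : ℝ) ^ (2 * d)) * (n : ℝ) ^ d) ≤
        (Nat.card {A : (Fin (d + 1) → Fin n) → Bool //
          IsPerm A ∧ eps A ≤ 16 * e ^ (2 * d) * (d + 3) * n ^ 2} : ℝ)) := by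
  classical
  have hee : ∀ R : ℕ, R ^ d * R ^ d = R ^ (2 * d) := fun R => by
    rw [← pow_add]; congr 1; ring
  have hee' : (e : ℝ) ^ d * (e : ℝ) ^ d = (e : ℝ) ^ (2 * d) := by
    rw [← pow_add]; congr 1; ring
  have he' : (1 : ℝ) ≤ e := by exact_mod_cast he
  set t : ℝ := 7 / (64 * ((e : ℝ) ^ d * (e : ℝ) ^ d)) with ht
  have ht0 : 0 < t := by
    have : (0 : ℝ) < e := by linarith
    rw [ht]; positivity
  have ht1 : t ≤ 1 := by
    rw [ht, div_le_one (by positivity)]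
    have h1 : (1 : ℝ) ≤ (e : ℝ) ^ d := one_le_pow₀ he'
    nlinarith
  refine ⟨⌈(8 / t) ^ (4 / t)⌉₊ + ⌈4 / t⌉₊, fun n hn hp => ?_⟩
  obtain ⟨G, i1, i2, hcard, hG⟩ := exists_group e n hn hp
  have ψ : G ≃ Fin n := Fintype.equivFinOfCardEq hcard
  refine ⟨?_, fun hn0 => ?_⟩
  · have := exists_one (d := d) he hG ψ hn
    rw [hee] at this
    exact this
  have hn1 : (1 : ℝ) ≤ n := by exact_mod_cast hn
  have hnA : (8 / t) ^ (4 / t) ≤ (n : ℝ) := by
    have h1 := Nat.le_ceil ((8 / t) ^ (4 / t))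
    have h2 : ((⌈(8 / t) ^ (4 / t)⌉₊ : ℕ) : ℝ) ≤ n := by
      exact_mod_cast (Nat.le_add_right _ _).trans hn0
    linarith
  have hnB : 4 / t ≤ (n : ℝ) := by
    have h1 := Nat.le_ceil (4 / t)
    have h2 : ((⌈4 / t⌉₊ : ℕ) : ℝ) ≤ n := by
      exact_mod_cast (Nat.le_add_left _ _).trans hn0
    linarith
  have hsmall : 2 * Real.exp (-(2 * n)) ≤ t / 4 := by
    have h3 : 2 * (n : ℝ) ≤ Real.exp (2 * n) := by
      have h4 := Real.add_one_le_exp (2 * (n : ℝ))
      linarith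
    rw [Real.exp_neg, ← div_eq_mul_inv, div_le_iff₀ (Real.exp_pos _)]
    rw [div_le_iff₀ ht0] at hnB
    nlinarith
  have hgood := good_count (d := d) he hG ψ hn t ht hsmall
  rw [hee] at hgood
  have hcardeq : (Nat.card {A : (Fin (d + 1) → Fin n) → Bool //
          IsPerm A ∧ eps A ≤ 16 * e ^ (2 * d) * (d + 3) * n ^ 2} : ℝ) =
      ((Finset.univ.filter (fun A : (Fin (d + 1) → Fin n) → Bool =>
        IsPerm A ∧ eps A ≤ 16 * e ^ (2 * d) * (d + 3) * n ^ 2)).card : ℝ) := by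
    rw [Nat.card_eq_fintype_card, Fintype.card_subtype]
  rw [hcardeq]
  refine le_trans ?_ hgood
  have hc : 7 / (256 * (e : ℝ) ^ (2 * d)) = t / 4 := by
    rw [ht, hee']
    have : (0 : ℝ) < (e : ℝ) ^ (2 * d) := by positivity
    field_simp
    norm_num
  rw [hc, le_div_iff₀ (by positivity)]
  set m := n ^ d with hm
  have hm1 : 1 ≤ m := Nat.one_le_pow _ _ hn
  have hmr : ((n : ℝ) ^ d) = (m : ℝ) := by rw [hm]; push_cast; rfl
  rw [hmr]
  have hn0' : (0 : ℝ) < n := by linarith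
  have hsplit : (n : ℝ) ^ (t / 2 * (m : ℝ)) = (n : ℝ) ^ (t / 4 * (m : ℝ)) *
      (n : ℝ) ^ (t / 4 * (m : ℝ)) := by
    rw [← Real.rpow_add hn0']
    congr 1; ring
  rw [hsplit]
  have hkey : (8 / t) ^ m ≤ (n : ℝ) ^ (t / 4 * (m : ℝ)) := by
    have h8 : (0 : ℝ) < 8 / t := by positivity
    calc (8 / t) ^ m = ((8 / t) ^ (4 / t)) ^ (t / 4 * (m : ℝ)) := by
          rw [← Real.rpow_mul h8.le, ← Real.rpow_natCast]
          congr 1
          field_simp
      _ ≤ (n : ℝ) ^ (t / 4 * (m : ℝ)) := by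
          apply Real.rpow_le_rpow (by positivity) hnA (by positivity)
  have h4t : 4 / t ≤ (4 / t) ^ m := by
    have h1 : 1 ≤ 4 / t := by
      rw [le_div_iff₀ ht0]; linarith
    calc 4 / t = (4 / t) ^ 1 := (pow_one _).symm
      _ ≤ (4 / t) ^ m := pow_le_pow_right₀ h1 hm1
  have hkey2 : 2 ^ m * (4 / t) ≤ (n : ℝ) ^ (t / 4 * (m : ℝ)) := by
    calc 2 ^ m * (4 / t) ≤ 2 ^ m * (4 / t) ^ m := by
          apply mul_le_mul_of_nonneg_left h4t (by positivity)
      _ = (8 / t) ^ m := by rw [← mul_pow]; congr 1; ring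
      _ ≤ _ := hkey
  have hpos : (0 : ℝ) ≤ (n : ℝ) ^ (t / 4 * (m : ℝ)) := by positivity
  have h5 : (2 : ℝ) ^ m ≤ t / 4 * (n : ℝ) ^ (t / 4 * (m : ℝ)) := by
    have h6 := mul_le_mul_of_nonneg_left hkey2 (show (0 : ℝ) ≤ t / 4 by positivity)
    have h7 : t / 4 * (2 ^ m * (4 / t)) = 2 ^ m := by field_simp
    rw [h7] at h6
    exact h6
  calc (n : ℝ) ^ (t / 4 * (m : ℝ)) * 2 ^ m
      ≤ (n : ℝ) ^ (t / 4 * (m : ℝ)) * (t / 4 * (n : ℝ) ^ (t / 4 * (m : ℝ))) :=
        mul_le_mul_of_nonneg_left h5 hpos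
    _ = _ := by ring

end Pool.Agent.Results.MP_56afde_co.AllDimensions
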