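import Pool.Agent.Helper3.EL.Final

/-!
# Empty boxes of almost all Latin squares: the bound `C n ^ 2`

There is a constant `C` such that for every `n` the proportion of the Latin squares of order `n`
which have an empty box of volume greater than `C n ^ 2` is at most `exp (-n)`. This is the case
`d = 2` of the question whether `ε(A) ≤ C(d) n ^ 2` for almost every `d`-dimensional permutation.
-/

set_option autoImplicit false

namespace Pool.Agent.Results.MP_56afde_co.AlmostAllQuadratic

open Pool.Agent.Helper41.Perm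

theorem result : ∃ C : ℝ, 0 < C ∧
    (∀ n : ℕ, 1 ≤ n →
      (Nat.card {A : (Fin 3 → Fin n) → Bool // IsPerm (d := 2) A ∧
        C * (n : ℝ) ^ 2 < (eps (d := 2) A : ℝ)} : ℝ) ≤
      Real.exp (-n) * (Nat.card {A : (Fin 3 → Fin n) → Bool // IsPerm (d := 2) A} : ℝ)) ∧
    Filter.Tendsto (fun n : ℕ =>
      (Nat.card {A : (Fin 3 → Fin n) → Bool // IsPerm (d := 2) A ∧
        (eps (d := 2) A : ℝ) ≤ C * (n : ℝ) ^ 2} : ℝ) /
      (Nat.card {A : (Fin 3 → Fin n) → Bool // IsPerm (d := 2) A} : ℝ))
      Filter.atTop (nhds 1) :=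
  Pool.Agent.Helper3.EL.final

end Pool.Agent.Results.MP_56afde_co.AlmostAllQuadratic
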